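import Pool.Agent.Helper62.DSH.StA

/-! Project DSH, module DVG: the divergence theorem in the frame. -/

set_option autoImplicit false

open Set Filter Topology MeasureTheory
open Helper62.LH Helper62.DSH
open scoped ContDiff ENNReal

noncomputable section

namespace Pool.Agent.Helper66.DSH

theorem dvg_fderiv {n : ℕ} (F : Fin n → E n → E n) (hF : ∀ a, ContDiff ℝ ∞ (F a)) (Y : E n → Fin n → ℝ)
    (hY : ContDiff ℝ 1 Y) (x v : E n) :
    fderiv ℝ (fun y => ∑ a, Y y a • F a y) x v =
      ∑ a, (Y x a • fderiv ℝ (F a) x v + fderiv ℝ (fun y => Y y a) x v • F a x) := by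
  have hYa : ∀ a, DifferentiableAt ℝ (fun y => Y y a) x := by
    intro a
    have h1 : ContDiff ℝ 1 (fun y => Y y a) := contDiff_pi.mp hY a
    exact (h1.differentiable one_ne_zero).differentiableAt
  have hFa : ∀ a, DifferentiableAt ℝ (F a) x := by
    intro a
    exact ((hF a).differentiable (by simp)).differentiableAt
  have h2 : HasFDerivAt (fun y => ∑ a, Y y a • F a y)
      (∑ a, (Y x a • fderiv ℝ (F a) x + (fderiv ℝ (fun y => Y y a) x).smulRight (F a x))) x := by
    apply HasFDerivAt.fun_sum
    intro a _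
    exact (hYa a).hasFDerivAt.smul (hFa a).hasFDerivAt
  rw [h2.fderiv]
  simp [ContinuousLinearMap.sum_apply]

theorem hDvg (hDiv : StDiv) (hTr : StTr) : TDvg := by
  intro n g Γ F G hM hC hF f hf Y hY hYc
  have hX1 : ContDiff ℝ 1 (fun y => ∑ a, Y y a • F a y) := by
    apply ContDiff.sum
    intro a _
    exact (contDiff_pi.mp hY a).smul ((hF.smF a).of_le (by exact_mod_cast le_top))
  have hXc : HasCompactSupport (fun y => ∑ a, Y y a • F a y) := by
    refine hYc.mono fun y hy => ?_
    intro h
    apply hy
    show ∑ a, Y y a • F a y = 0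
    rw [h]
    simp
  have h1 := hDiv n g Γ hM hC f hf (fun y => ∑ a, Y y a • F a y) hX1 hXc
  rw [← h1]
  refine integral_congr_ae (Eventually.of_forall fun x => ?_)
  have key : dvf Γ f (fun y => ∑ a, Y y a • F a y) x = ∑ a, (fderiv ℝ (fun y => Y y a) x (F a x) +
      ((∑ b, G x b a b) - fderiv ℝ f x (F a x)) * Y x a) := by
    unfold dvf
    rw [(hTr n g hM x (fun a => F a x) (hF.onb x)).2.2.2.2 (cX Γ (fun y => ∑ a, Y y a • F a y) x)]
    have h2 : ∀ b, cX Γ (fun y => ∑ a, Y y a • F a y) x (F b x) =
        ∑ a, (fderiv ℝ (fun y => Y y a) x (F b x) • F a x + Y x a • ∑ c, G x b a c • F c x) := by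
      intro b
      unfold cX
      rw [ContinuousLinearMap.add_apply, ContinuousLinearMap.flip_apply, dvg_fderiv F hF.smF Y hY, map_sum,
        ← Finset.sum_add_distrib]
      refine Finset.sum_congr rfl fun a _ => ?_
      rw [map_smul, ← hF.cn x b a, smul_add]
      abel
    have h3 : ∀ b, g x (cX Γ (fun y => ∑ a, Y y a • F a y) x (F b x)) (F b x) =
        fderiv ℝ (fun y => Y y b) x (F b x) + ∑ a, Y x a * G x b a b := by
      intro b
      rw [h2 b, map_sum, ContinuousLinearMap.sum_apply]
      have h4 : ∀ a, g x (fderiv ℝ (fun y => Y y a) x (F b x) • F a x + Y x a • ∑ c, G x b a c • F c x) (F b x) =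
          fderiv ℝ (fun y => Y y a) x (F b x) * (if a = b then 1 else 0) + Y x a * G x b a b := by
        intro a
        rw [map_add, ContinuousLinearMap.add_apply, map_smul, map_smul, map_sum, ContinuousLinearMap.smul_apply,
          ContinuousLinearMap.smul_apply, ContinuousLinearMap.sum_apply, (hF.onb x).orth a b, smul_eq_mul, smul_eq_mul]
        congr 2
        have h5 : ∀ c, g x (G x b a c • F c x) (F b x) = G x b a c * (if c = b then 1 else 0) := by
          intro c
          rw [map_smul, ContinuousLinearMap.smul_apply, (hF.onb x).orth c b, smul_eq_mul]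
        rw [Finset.sum_congr rfl fun c _ => h5 c]
        simp
      rw [Finset.sum_congr rfl fun a _ => h4 a, Finset.sum_add_distrib]
      congr 1
      simp
    rw [Finset.sum_congr rfl fun b _ => h3 b, Finset.sum_add_distrib, map_sum]
    rw [Finset.sum_comm (f := fun b a => Y x a * G x b a b)]
    rw [add_sub_assoc, ← Finset.sum_sub_distrib, ← Finset.sum_add_distrib]
    refine Finset.sum_congr rfl fun a _ => ?_
    rw [map_smul, smul_eq_mul, ← Finset.mul_sum]
    ring
  show _ * wt g f x = dvf Γ f (fun y => ∑ a, Y y a • F a y) x * (Real.exp (-f x) * vol g x)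
  rw [key]
  rfl

end Pool.Agent.Helper66.DSH
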